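import Pool.Agent.Lib.MP_d33a1c_lc.Fusion

open Filter Topology

namespace Pool.Agent.Results.MP_d33a1c_lc.LimitPointsFSigma

/-- countable union of closed sets -/
def FSigma {Y : Type*} [TopologicalSpace Y] (S : Set Y) : Prop :=
  ∃ D : ℕ → Set Y, (∀ j, IsClosed (D j)) ∧ S = ⋃ j, D j

/-- countable intersection of countable unions of closed sets -/
def FSigmaDelta {Y : Type*} [TopologicalSpace Y] (S : Set Y) : Prop :=
  ∃ F : ℕ → Set Y, (∀ i, FSigma (F i)) ∧ S = ⋂ i, F i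

/-- ideal on the natural numbers -/
def IsIdeal (I : Set (Set ℕ)) : Prop :=
  (∀ A ∈ I, ∀ B ⊆ A, B ∈ I) ∧ (∀ A ∈ I, ∀ B ∈ I, A ∪ B ∈ I) ∧
    (∀ A : Set ℕ, A.Finite → A ∈ I) ∧ Set.univ ∉ I

/-- limits of the subsequences whose index set is not in the ideal -/
def limitPoints {X : Type*} [TopologicalSpace X] (x : ℕ → X) (I : Set (Set ℕ)) : Set X :=
  {η | ∃ a : ℕ → ℕ, StrictMono a ∧ Set.range a ∉ I ∧ Tendsto (fun k => x (a k)) atTop (𝓝 η)}

theorem result (X : Type*) [TopologicalSpace X] [SecondCountableTopology X]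
    (I : Set (Set ℕ)) (hI : IsIdeal I)
    (h : FSigmaDelta {f : ℕ → Bool | {n : ℕ | f n = true} ∈ I}) (x : ℕ → X) :
    FSigma (limitPoints x I) := by
  obtain ⟨hsub, hun, hfin, -⟩ := hI
  obtain ⟨F, hF, hFI⟩ := h
  choose C hC hFC using hF
  obtain ⟨D, hD, hL⟩ := Pool.Agent.Lib.MP_d33a1c_lc.limit_points_fsigma X I
    (fun A hA B hB => hsub A hA B hB) hun C hC (by rw [hFI]; simp only [hFC]) x
  refine ⟨D, hD, ?_⟩
  rw [← hL]
  have key : ∀ a : ℕ → ℕ, StrictMono a → map a atTop = atTop ⊓ 𝓟 (Set.range a) := by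
    intro a ha
    have h1 : comap a atTop = atTop := by
      rw [← Nat.cofinite_eq_atTop]
      exact ha.injective.comap_cofinite_eq
    conv_lhs => rw [← h1]
    exact map_comap _ _
  ext η
  constructor
  · rintro ⟨a, ha, hA, ht⟩
    refine ⟨Set.range a, hA, ?_⟩
    rw [← key a ha]
    exact tendsto_map'_iff.2 ht
  · rintro ⟨A, hA, ht⟩
    have hinf : A.Infinite := fun hf => hA (hfin A hf)
    have hm : StrictMono (Nat.nth (· ∈ A)) := Nat.nth_strictMono hinf
    have hr : Set.range (Nat.nth (· ∈ A)) = A := Nat.range_nth_of_infinite hinf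
    refine ⟨Nat.nth (· ∈ A), hm, by rw [hr]; exact hA, ?_⟩
    rw [← hr, ← key _ hm] at ht
    exact tendsto_map'_iff.1 ht

end Pool.Agent.Results.MP_d33a1c_lc.LimitPointsFSigma
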